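import Pool.Agent.H81.NCH.Stmts

/-!
# NCH: averages, linearity and monotonicity
-/

set_option autoImplicit false

namespace Pool.Agent.H81.NCH

theorem ava_thm : AVAStmt := by
  intro h m S hm
  have : Nonempty (Fin m) := ⟨⟨0, hm⟩⟩
  have hc : (0 : ℝ) < Fintype.card (Om h m) := by exact_mod_cast Fintype.card_pos
  refine ⟨?_, ?_, ?_, ?_, ?_, ?_⟩
  · intro F G ω hFG
    unfold avg
    exact div_le_div_of_nonneg_right (Finset.sum_le_sum fun η _ => hFG _) hc.le
  · intro c ω
    unfold avg
    rw [Finset.sum_const, Finset.card_univ, nsmul_eq_mul, mul_div_cancel_left₀ _ hc.ne']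
  · intro c F ω
    unfold avg
    rw [← Finset.mul_sum, mul_div_assoc]
  · intro ι s F ω
    unfold avg
    rw [Finset.sum_comm, Finset.sum_div]
  · intro F G ω
    unfold avg
    rw [Finset.sum_add_distrib, add_div]
  · intro F ω hF
    unfold avg
    exact div_nonneg (Finset.sum_nonneg fun η _ => hF _) hc.le

end Pool.Agent.H81.NCH
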