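import Pool.Agent.H81.NCH.Stmts
import Pool.Agent.H81.NCH.Base

/-!
# NCH: locality of the level
-/

set_option autoImplicit false

namespace Pool.Agent.H81.NCH

/-- a boundary outside of the interval of `(e, i)` has index zero for the nodes inside -/
theorem idx_inside_outside {h m e i e' i' t : ℕ} (he' : e' ≤ h)
    (h0 : Inside e i e' i') (ht : t ≤ st h m e i ∨ en h m e i ≤ t) : idx h m e' i' t = 0 := by
  apply idx_outside
  rcases Nat.lt_or_ge e e' with h1 | h1
  · have h2 := nested (m := m) h0 h1 he'
    have h3 := st_le_cs (h := h) (m := m) e i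
    have h4 := ce_le_en (h := h) (m := m) e i
    rcases ht with h5 | h5
    · exact Or.inl (by omega)
    · exact Or.inr (by omega)
  · obtain ⟨h2, h3⟩ := h0
    have h4 : e = e' := by omega
    subst h4
    simp at h3
    subst h3
    exact ht

theorem loc_thm : LOCStmt := by
  intro h m r r' e i t _ _ _ ht hr
  unfold phi
  refine Finset.sum_congr rfl fun D hD => Finset.sum_congr rfl fun x _ => ?_
  have hDh : D + 1 ≤ h := by
    have := Finset.mem_range.1 hD
    omega
  by_cases h0 : Inside e i (D + 1) x
  · rw [idx_inside_outside hDh h0 ht]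
    simp [kap]
  · rw [hr _ _ h0]

end Pool.Agent.H81.NCH
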